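import Pool.Agent.H297R2.LG.Defs

/-! BLUEPRINT (sorry stubs, never import this file). Each task = one file `Pool.Agent.<YOURDIR>.<Name>`
with the statement(s) below, namespace `LG`. -/

open Complex Filter Topology Set MeasureTheory

namespace LG

open SG (hh nn dd dl ord NZ)
open SP (RHs ZZ mu wt Mk Par Eb PS chi qq tt)

/-! ## 1. EFX : explicit formula for long `u` (modify SP.EF / H370.ef_of) -/
theorem EFX (hRH : RHs) : ∃ C T0 : ℝ, 0 < C ∧ 10 ≤ T0 ∧ ∀ T : ℝ, T0 ≤ T → ∀ u t : ℝ,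
    0 ≤ u → u ≤ Real.log T ^ 2 / 16 → T + Real.log T ≤ t → t ≤ 2 * T - Real.log T →
    ‖(∑ᶠ s ∈ ZZ T, (mu s : ℂ) * (Real.exp (-(s.im - t) ^ 2 / 2) : ℂ) *
        cexp (I * ((u * (s.im - t) : ℝ) : ℂ))) -
      (1 / Real.sqrt (2 * Real.pi) : ℝ) * ((Real.log T * Real.exp (-u ^ 2 / 2) : ℝ) -
        ∑' n : ℕ, (ArithmeticFunction.vonMangoldt n : ℂ) * (n : ℂ) ^ (-(1 / 2 : ℂ) - I * t) *
          (Real.exp (-(u - Real.log n) ^ 2 / 2) : ℂ))‖ ≤ C * Real.exp (-u) := sorry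

/-! ## 2. KER : the kernel -/
theorem gK_approx (A c : ℝ) (hA : 0 < A) (hc : 0 < c) : ∃ C : ℝ, 0 < C ∧ ∀ L x : ℝ, 1 ≤ L →
    |gK A c (L * x) - (2 / L) * ∫ u in (0 : ℝ)..(L ^ 2 / 16), gh A c (u / L) * Real.cos (u * x)| ≤
      C / L ^ 2 := sorry
theorem gK_bounds (A c x : ℝ) (hA : 0 < A) (hc : 0 < c) : 0 ≤ gK A c x ∧ gK A c x ≤ 1 := sorry
theorem gK_continuous (A c : ℝ) : Continuous (gK A c) := sorry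
theorem gK_ge (c0 c ε : ℝ) (h0 : 0 < c0) (h1 : c0 < c) (hε : 0 < ε) : ∃ A0 : ℝ, 0 < A0 ∧
    ∀ A : ℝ, A0 ≤ A → ∀ x : ℝ, |x| ≤ Real.pi * c0 → 1 - ε ≤ gK A c x := sorry
theorem gh_continuous (A c : ℝ) : Continuous (gh A c) := sorry
theorem gh_le (A c v : ℝ) (hc : 0 < c) : |gh A c v| ≤ c := sorry
theorem gh_lip (A c : ℝ) (hA : 0 < A) (hc : 0 < c) : ∃ K : NNReal, LipschitzWith K (gh A c) := sorry
theorem bk_le (A c T x : ℝ) (hc : 0 < c) : |bk A c T x| ≤ c := sorry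
/-- main term of the explicit formula -/
theorem gh_main (A c : ℝ) (hA : 0 < A) (hc : 0 < c) : ∃ C : ℝ, 0 < C ∧ ∀ L : ℝ, 4 ≤ L →
    |(2 / L) * ((1 / Real.sqrt (2 * Real.pi)) * ∫ u in (0 : ℝ)..(L ^ 2 / 16),
      gh A c (u / L) * (L * Real.exp (-u ^ 2 / 2))) - c| ≤ C / L := sorry
theorem lk_summable (A c : ℝ) (hc : 0 < c) : ∃ C : ℝ, 0 < C ∧ ∀ T : ℝ, 10 ≤ T →
    Summable (fun n => |lk A c T n|) ∧ ∑' n, |lk A c T n| ≤ C * Real.exp (Real.log T ^ 4) := sorry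
theorem bk_approx (A c : ℝ) (hA : 0 < A) (hc : 0 < c) : ∃ C T0 : ℝ, 0 < C ∧ 10 ≤ T0 ∧
    ∀ T : ℝ, T0 ≤ T → ∀ x : ℝ, T ^ (1 / Real.sqrt (Real.log T)) ≤ x → x ≤ T ^ (2 : ℝ) →
    |bk A c T x - gh A c (Real.log x / Real.log T)| ≤ C / Real.log T := sorry

/-! ## 3. ZEF : explicit formula for `Zs` (uses 1, 2) -/
theorem ZEF (hRH : RHs) (A c : ℝ) (hA : 0 < A) (hc : 0 < c) : ∃ C T0 : ℝ, 0 < C ∧ 10 ≤ T0 ∧
    ∀ T : ℝ, T0 ≤ T → ∀ t : ℝ, T + Real.log T ≤ t → t ≤ 2 * T - Real.log T →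
    |Zs A c T t - (c - (2 / Real.log T) *
      (∑' n : ℕ, (lk A c T n : ℂ) * cexp (-(I * ((t * Real.log n : ℝ) : ℂ)))).re)| ≤
      C / Real.log T := sorry

/-! ## 4. GMV : Gaussian mean value -/
theorem GMV {ι : Type*} (S : Finset ι) (e : ι → ℝ) (x y : ι → ℕ) (D t0 X : ℝ) (n : ℕ) (hD : 0 < D)
    (hX : 1 ≤ X) (hx : ∀ i ∈ S, 1 ≤ x i) (hy : ∀ i ∈ S, 1 ≤ y i)
    (hxy : ∀ i ∈ S, ∀ j ∈ S, ((x i : ℝ) * y j) ≤ X) (hn : 1 ≤ n) :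
    ‖(∫ t : ℝ, (wt t0 D t : ℂ) * ((‖∑ i ∈ S, (e i : ℂ) *
        cexp (I * ((t * (Real.log (x i) - Real.log (y i)) : ℝ) : ℂ))‖ ^ 2 : ℝ) : ℂ) *
        cexp (-(I * ((t * Real.log n : ℝ) : ℂ)))) -
      ((Real.sqrt (2 * Real.pi) * D *
        ∑ i ∈ S, ∑ j ∈ S, (if x i * y j = n * (y i * x j) then e i * e j else 0) : ℝ) : ℂ)‖ ≤
      Real.sqrt (2 * Real.pi) * D * (∑ i ∈ S, |e i|) ^ 2 * Real.exp (-(D ^ 2 / (8 * X ^ 2))) := sorry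

/-! ## 5. SETS : elementary facts on the families -/
theorem fam_facts (P : Par) (B0 : ℕ) (hB : P.B = 2 * B0) (r : ℝ) (F : ℕ → ℝ) :
    ∃ C T0 : ℝ, 0 < C ∧ 10 ≤ T0 ∧ ∀ T : ℝ, T0 ≤ T →
    (∀ A ∈ fam P B0 T, 1 ≤ nA A ∧ (nA A : ℝ) ≤ T ^ ((1 - P.κ) / 2) ∧ |ae P r F T A| ≤ C ∧
      A.card ≤ B0) ∧
    (∀ p ∈ PS P T, |yp P r T p| ≤ 1 ∧ yp P r T p ^ 2 ≤ C / p ∧
      yp P r T p ^ 2 ≤ C * T ^ (-(1 / (4 * (B0 : ℝ))))) ∧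
    (∑ q ∈ prs P B0 T, |ae P r F T q.1 * ae P r F T q.2| ≤ T ^ 2) ∧
    (∑ A ∈ fam P B0 T, ∏ p ∈ A, yp P r T p ^ 2 ≤ C) := sorry

/-! ## 6. MEAN : the two mean values (uses 3, 4, 5, KER) -/
theorem MEAN (hRH : RHs) (P : Par) (B0 : ℕ) (hB : P.B = 2 * B0) (r : ℝ) (F : ℕ → ℝ) (A c : ℝ)
    (hA : 0 < A) (hc : 0 < c) : ∃ C T0 : ℝ, 0 < C ∧ 10 ≤ T0 ∧ ∀ T : ℝ, T0 ≤ T →
    ∀ t0 : ℝ, 11 / 10 * T ≤ t0 → t0 ≤ 19 / 10 * T →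
    |(∫ t in (T + 2 * Real.log T)..(2 * T - 2 * Real.log T),
        wt t0 (dd P.κ T) t * ‖EE P B0 r F T t‖ ^ 2) -
      Real.sqrt (2 * Real.pi) * dd P.κ T * Cn P B0 r F T 1| ≤
      C * dd P.κ T / Real.log T * (1 + |Cn P B0 r F T 1|) ∧
    |(∫ t in (T + 2 * Real.log T)..(2 * T - 2 * Real.log T),
        wt t0 (dd P.κ T) t * ‖EE P B0 r F T t‖ ^ 2 * Zs A c T t) -
      Real.sqrt (2 * Real.pi) * dd P.κ T * (c * Cn P B0 r F T 1 -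
        (2 / Real.log T) * ∑' n : ℕ, lk A c T n * Cn P B0 r F T n)| ≤
      C * dd P.κ T / Real.log T * (1 + |Cn P B0 r F T 1|) := sorry

/-! ## 7. CLS : classification of the solutions of `n_B n_A' = n n_A n_B'` (pure combinatorics) -/
theorem Cn_one (P : Par) (B0 : ℕ) (r : ℝ) (F : ℕ → ℝ) (T : ℝ) (hT : 10 ≤ T) :
    Cn P B0 r F T 1 = ∑ q ∈ prs P B0 T, (ae P r F T q.1) ^ 2 * (ae P r F T q.2) ^ 2 := sorry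
theorem Cn_prime (P : Par) (B0 : ℕ) (r : ℝ) (F : ℕ → ℝ) (T : ℝ) (hT : 10 ≤ T) (p : ℕ)
    (hp : p ∈ PS P T) :
    Cn P B0 r F T p = 2 * ∑ q ∈ (prs P B0 T).filter (fun q => p ∉ q.1 ∧ p ∉ q.2 ∧
      ∑ x ∈ q.2, Eb P T x + Eb P T p ≤ B0),
      (ae P r F T q.1) ^ 2 * (ae P r F T q.2 * ae P r F T (insert p q.2)) := sorry
theorem Cn_prime_sq (P : Par) (B0 : ℕ) (r : ℝ) (F : ℕ → ℝ) (T : ℝ) (hT : 10 ≤ T) (p : ℕ)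
    (hp : p ∈ PS P T) :
    |Cn P B0 r F T (p ^ 2)| ≤ ∑ q ∈ (prs P B0 T).filter (fun q => p ∉ q.1 ∧ p ∉ q.2),
      |ae P r F T q.1 * ae P r F T (insert p q.1) * (ae P r F T q.2 * ae P r F T (insert p q.2))| :=
  sorry
theorem Cn_zero (P : Par) (B0 : ℕ) (r : ℝ) (F : ℕ → ℝ) (T : ℝ) (hT : 10 ≤ T) (p k : ℕ)
    (hp : p.Prime) (hk : 1 ≤ k) (h : p ∉ PS P T ∨ 3 ≤ k) : Cn P B0 r F T (p ^ k) = 0 := sorry

/-! ## 8. DIS : disjointness errors tend to zero (uses 5, 7) -/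
theorem DIS (P : Par) (B0 : ℕ) (hB : P.B = 2 * B0) (r : ℝ) (hr : 0 < r) (F : ℕ → ℝ) :
    ∃ C η T0 : ℝ, 0 < C ∧ 0 < η ∧ 10 ≤ T0 ∧ ∀ T : ℝ, T0 ≤ T →
    |Cn P B0 r F T 1 - SF B0 F (QT P r T) ^ 2| ≤ C * T ^ (-η) ∧
    (∀ p ∈ PS P T, Eb P T p ≤ B0 →
      |Cn P B0 r F T p - 2 * yp P r T p * (SF B0 F (QT P r T) * SM B0 F (QT P r T) (Eb P T p))| ≤
        C * |yp P r T p| * T ^ (-η)) ∧
    (∀ p ∈ PS P T, B0 < Eb P T p → Cn P B0 r F T p = 0) ∧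
    (∀ p ∈ PS P T, |Cn P B0 r F T (p ^ 2)| ≤ C / p) := sorry

/-! ## 9. QLIM : limit of `QT` (Newton's recursion and `mert`; model: SP.tt_lim) -/
theorem QLIM (P : Par) (B0 : ℕ) (hB : P.B = 2 * B0) (r : ℝ) (q : ℕ → ℝ)
    (hq : IsQ B0 (tm P r) q) (n : ℕ) (hn : n ≤ B0) :
    Tendsto (fun T : ℝ => QT P r T n) atTop (𝓝 (q n)) := sorry

/-! ## 10. PSUM : prime sums in one bin (uses KER, `mert`, `chi_approx`; model: SP.tt_lim) -/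
theorem PSUM (P : Par) (A c : ℝ) (hA : 0 < A) (hc : 0 < c) (m : ℕ) :
    Tendsto (fun T : ℝ => ∑ p ∈ (PS P T).filter (fun p => Eb P T p = m),
      Real.log p / Real.log T * bk A c T p * chi P T p / p) atTop (𝓝 (sm P A c m / Real.pi)) := sorry
theorem PSUM_abs (P : Par) (A c : ℝ) (hA : 0 < A) (hc : 0 < c) : ∃ C T0 : ℝ, 0 < C ∧ 10 ≤ T0 ∧
    ∀ T : ℝ, T0 ≤ T → ∑ p ∈ PS P T, |Real.log p / Real.log T * bk A c T p * chi P T p / p| ≤ C ∧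
      ∑ p ∈ PS P T, |Real.log p * bk A c T ((p ^ 2 : ℕ) : ℝ) / (p : ℝ) ^ 2| ≤ C := sorry

/-! ## 11. COMB : limits of the diagonal terms (uses 7, 8, 9, 10) -/
theorem COMB1 (P : Par) (B0 : ℕ) (hB : P.B = 2 * B0) (r : ℝ) (hr : 0 < r) (F q : ℕ → ℝ)
    (hq : IsQ B0 (tm P r) q) :
    Tendsto (fun T : ℝ => Cn P B0 r F T 1) atTop (𝓝 (SF B0 F q ^ 2)) := sorry
theorem COMB2 (P : Par) (B0 : ℕ) (hB : P.B = 2 * B0) (r : ℝ) (hr : 0 < r) (F q : ℕ → ℝ)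
    (hq : IsQ B0 (tm P r) q) (A c : ℝ) (hA : 0 < A) (hc : 0 < c) :
    Tendsto (fun T : ℝ => (2 / Real.log T) * ∑' n : ℕ, lk A c T n * Cn P B0 r F T n) atTop
      (𝓝 (4 * r / Real.pi * (SF B0 F q * ∑ m ∈ Finset.Icc 2 B0, sm P A c m * SM B0 F q m))) := sorry

/-! ## 12. MOM : fourth moment of `E` (SP.Pj_bound, SP.newton, SP.newton_growth, SP.exp_main) -/
theorem EE_bound (hRH : RHs) (P : Par) (B0 : ℕ) (hB : P.B = 2 * B0) (r : ℝ) (hr : 0 < r)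
    (F : ℕ → ℝ) : ∃ C T0 : ℝ, 0 < C ∧ 10 ≤ T0 ∧ ∀ T : ℝ, T0 ≤ T → ∀ t : ℝ,
    T + 2 * Real.log T ≤ t → t ≤ 2 * T - 2 * Real.log T →
    ‖EE P B0 r F T t‖ ≤ C * (1 + Mk T 1 t) ^ (2 * B0) := sorry
theorem MOM (hRH : RHs) (P : Par) (B0 : ℕ) (hB : P.B = 2 * B0) (r : ℝ) (hr : 0 < r)
    (F : ℕ → ℝ) : ∃ C T0 : ℝ, 0 < C ∧ 10 ≤ T0 ∧ ∀ T : ℝ, T0 ≤ T → ∀ t0 : ℝ,
    ∫ t in (T + 2 * Real.log T)..(2 * T - 2 * Real.log T),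
      wt t0 (dd P.κ T) t * ‖EE P B0 r F T t‖ ^ 4 ≤ C * dd P.κ T := sorry

/-! ## 13. GAPTAIL : very large gaps are rare (SP.EF, SP.prime_part, SP.Mk_mean, SP.mom_Q) -/
theorem GAPTAIL (hRH : RHs) (κ : ℝ) (hκ : 0 < κ) (hκ1 : κ < 1 / 2) (ε : ℝ) (hε : 0 < ε) :
    ∃ X T0 : ℝ, 1 ≤ X ∧ 10 ≤ T0 ∧ ∀ T : ℝ, T0 ≤ T → ∃ G : ℝ → ℝ, Continuous G ∧ (∀ t, 0 ≤ G t) ∧
    (∀ t : ℝ, T + Real.log T ≤ t → t ≤ 2 * T - Real.log T →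
      (∀ s ∈ ZZ T, X / Real.log T < |s.im - t|) → 1 ≤ G t) ∧
    ∀ t0 V1 V2 : ℝ, V1 ≤ V2 → T + Real.log T ≤ V1 → V2 ≤ 2 * T - Real.log T →
      ∫ t in V1..V2, wt t0 (dd κ T) t * G t ≤ ε * dd κ T := sorry

/-! ## 14. LOCAL : many large gaps in every window (uses KER, 6, 11, 12, 13; model: SP.local_many) -/
theorem LOCAL (hRH : RHs) (P : Par) (B0 : ℕ) (hB : P.B = 2 * B0) (r : ℝ) (hr : 0 < r)
    (F q : ℕ → ℝ) (hq : IsQ B0 (tm P r) q) (c : ℝ) (hc : 0 < c) (hSF : 0 < SF B0 F q)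
    (hstrict : c * SF B0 F q < SF B0 F q +
      4 * r / Real.pi * ∑ m ∈ Finset.Icc 2 B0, sm0 P c m * SM B0 F q m) :
    ∃ η ε K T0 : ℝ, 0 < η ∧ 0 < ε ∧ 1 ≤ K ∧ 10 ≤ T0 ∧ ∀ T : ℝ, T0 ≤ T →
    ∀ t0 : ℝ, 11 / 10 * T ≤ t0 → t0 ≤ 19 / 10 * T →
    ε * dd P.κ T * Real.log T ≤ ({n : ℕ | 1 ≤ n ∧ |ord n - t0| ≤ K * dd P.κ T ∧
      2 * Real.pi * (c + η) / Real.log T < ord (n + 1) - ord n}.ncard : ℝ) := sorry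

/-! ## 15. POS : positive proportion (uses 14; model: SP.pos_prop, SP.pos_prop_aux) -/
theorem POS (hRH : RHs) (P : Par) (B0 : ℕ) (hB : P.B = 2 * B0) (r : ℝ) (hr : 0 < r)
    (F q : ℕ → ℝ) (hq : IsQ B0 (tm P r) q) (c : ℝ) (hc : 0 < c) (hSF : 0 < SF B0 F q)
    (hstrict : c * SF B0 F q < SF B0 F q +
      4 * r / Real.pi * ∑ m ∈ Finset.Icc 2 B0, sm0 P c m * SM B0 F q m) :
    ∃ ε : ℝ, 0 < ε ∧ ∀ᶠ N : ℕ in atTop, ε * N ≤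
      (({n : ℕ | 1 ≤ n ∧ n ≤ N ∧
        c < (ord (n + 1) - ord n) / (2 * Real.pi) * Real.log (ord n / (2 * Real.pi))}.ncard : ℕ) : ℝ) :=
  sorry

/-! ## 16-19. PAR : the parameters -/
/-- 16. numeric inequality (`5 < 2πr...`; Taylor polynomial of the sine and Beta integrals) -/
theorem NUM : (257 / 100 : ℝ) * (73 / 35) < 4 * Real.sqrt 5 / Real.pi *
    ∫ v in (0 : ℝ)..1, Real.pi * (357 / 200) * (999 / 1000) *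
      Real.sinc (Real.pi * (357 / 200) * (999 / 1000) * v) *
      (12 / 5 * (1 - v) ^ 5 + 77 / 30 * (1 - v) ^ 6 - 121 / 42 * (1 - v) ^ 7) := sorry

/-- the ideal sequence: `t_1 = 0`, `t_m = 5` for `m ≥ 2` -/
def tid (m : ℕ) : ℝ := if 2 ≤ m then 5 else 0

/-- 17. its growth (generating function `e^{-5z} (1-z)^{-5}`) -/
theorem QGROW (q : ℕ → ℝ) (hq : ∀ N, IsQ N tid q) :
    Tendsto (fun n : ℕ => q n / (n : ℝ) ^ 4) atTop (𝓝 (Real.exp (-5) / 24)) ∧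
    ∃ C : ℝ, 0 < C ∧ ∀ n : ℕ, 0 ≤ q n ∧ q n ≤ C * ((n : ℝ) ^ 4 + 1) := sorry

/-- ideal value of `sm0`: the bin is `[β e^{-1/m}, β]`, `β = m w`, `w = (1-κ)/(2 B0)` -/
noncomputable def smid (w c : ℝ) (m : ℕ) : ℝ :=
  ∫ u in (m * w * Real.exp (-1 / m))..(m * w), Real.sin (Real.pi * c * u) / u

/-- the resonator weights -/
noncomputable def Fid (B0 n : ℕ) : ℝ := 12 - 11 * ((n : ℝ) / B0)

/-- 18. the limit `B0 → ∞` (Riemann sums), uses 16, 17 -/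
theorem IDEAL : ∃ B0 : ℕ, 10 ≤ B0 ∧ ∀ q : ℕ → ℝ, IsQ B0 tid q → 0 < SF B0 (Fid B0) q ∧
    (357 / 100) * SF B0 (Fid B0) q < SF B0 (Fid B0) q + 4 * Real.sqrt 5 / Real.pi *
      ∑ m ∈ Finset.Icc 2 B0, smid ((999 / 1000) / (2 * B0)) (357 / 100) m * SM B0 (Fid B0) q m := sorry

/-- 19. smooth bumps and continuity (model: SP Choose.lean), uses 18 -/
theorem PAR : ∃ (P : Par) (B0 : ℕ) (r : ℝ) (F q : ℕ → ℝ), P.B = 2 * B0 ∧ 0 < r ∧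
    IsQ B0 (tm P r) q ∧ 0 < SF B0 F q ∧
    (357 / 100) * SF B0 F q < SF B0 F q +
      4 * r / Real.pi * ∑ m ∈ Finset.Icc 2 B0, sm0 P (357 / 100) m * SM B0 F q m := sorry

/-! ## 20. FINAL -/
theorem FINAL (hRH : RHs) :
    ∃ ε : ℝ, 0 < ε ∧ ∀ᶠ N : ℕ in atTop, ε * N ≤
      (({n : ℕ | 1 ≤ n ∧ n ≤ N ∧
        357 / 100 < (ord (n + 1) - ord n) / (2 * Real.pi) *
          Real.log (ord n / (2 * Real.pi))}.ncard : ℕ) : ℝ) := by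
  obtain ⟨P, B0, r, F, q, h1, h2, h3, h4, h5⟩ := PAR
  exact POS hRH P B0 h1 r h2 F q h3 _ (by norm_num) h4 h5

end LG
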