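import Pool.Agent.H382P.Defs
import Pool.Agent.H382R2.Final0

/-! Large gaps between zeros of the zeta function: definitions.

Conventions (as in TEAM SG): `L = log T`, zeros `ZZ T` = zeros in the critical strip with ordinate in
`(T, 2T]`, `mu` multiplicity, `wt t0 D t = exp(-(t-t0)²/(2D²))`, `dd κ T = T^(1-κ/2)`,
`nn κ T = ⌊T^(1-κ)⌋`, `P : SP.Par` contains `κ, m, B, b` (the fields `c`, `a` of `P` play no role here),
`PS P T` = primes `p ≤ T^(1-κ)` with bin number `Eb P T p ≥ 2`, `Eb P T p = ⌈B log p/((1-κ) log T)⌉`,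
`chi P T p` = smooth weight, close to `u b_j(u)`, `u = log p/log T`, `j = Eb P T p`.
We always take `P.B = 2 * B0`; sets of primes of energy `∑ Eb ≤ B0` have product `≤ T^((1-κ)/2)`. -/

open Complex Filter Topology Set MeasureTheory

namespace LG

open SG (hh nn dd dl ord NZ)
open SP (RHs ZZ mu wt Mk Par Eb PS chi qq tt)

/-! ### the kernel -/

/-- smoothed indicator function of `[-πc, πc]` (convolution with a Gaussian of width `1/A`) -/
noncomputable def gK (A c x : ℝ) : ℝ :=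
  ∫ y in (-(Real.pi * c))..(Real.pi * c),
    A / Real.sqrt (2 * Real.pi) * Real.exp (-(A * (x - y)) ^ 2 / 2)

/-- its Fourier transform: `gK A c x = ∫ gh A c v cos (v x) dv` -/
noncomputable def gh (A c v : ℝ) : ℝ :=
  c * Real.sinc (Real.pi * c * v) * Real.exp (-(v / A) ^ 2 / 2)

/-- the smoothed number of zeros in `[t - πc/L, t + πc/L]` -/
noncomputable def Zs (A c T t : ℝ) : ℝ :=
  ∑ᶠ s ∈ ZZ T, (mu s : ℝ) * Real.exp (-(s.im - t) ^ 2 / 2) * gK A c (Real.log T * (s.im - t))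

/-- smoothed Fourier transform at `log x` -/
noncomputable def bk (A c T x : ℝ) : ℝ :=
  (1 / Real.sqrt (2 * Real.pi)) * ∫ u in (0 : ℝ)..(Real.log T ^ 2 / 16),
    gh A c (u / Real.log T) * Real.exp (-(u - Real.log x) ^ 2 / 2)

/-- coefficients of the prime side of the explicit formula: `Λ(n) n^{-1/2} bk(n)` -/
noncomputable def lk (A c T : ℝ) (n : ℕ) : ℝ :=
  ArithmeticFunction.vonMangoldt n * (n : ℝ) ^ (-(1 / 2) : ℝ) * bk A c T n

/-! ### the two-sided Dirichlet polynomial -/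

/-- sets of primes of energy at most `B0` -/
noncomputable def fam (P : Par) (B0 : ℕ) (T : ℝ) : Finset (Finset ℕ) :=
  (PS P T).powerset.filter (fun A => ∑ p ∈ A, Eb P T p ≤ B0)

/-- pairs of disjoint sets of primes, each of energy at most `B0` -/
noncomputable def prs (P : Par) (B0 : ℕ) (T : ℝ) : Finset (Finset ℕ × Finset ℕ) :=
  (fam P B0 T ×ˢ fam P B0 T).filter (fun q => Disjoint q.1 q.2)

/-- the product of the primes of a set -/
def nA (A : Finset ℕ) : ℕ := ∏ p ∈ A, p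

/-- the coefficient of a prime -/
noncomputable def yp (P : Par) (r T : ℝ) (p : ℕ) : ℝ := r * chi P T p / Real.sqrt p

/-- coefficient of a set -/
noncomputable def ae (P : Par) (r : ℝ) (F : ℕ → ℝ) (T : ℝ) (A : Finset ℕ) : ℝ :=
  F (∑ p ∈ A, Eb P T p) * ∏ p ∈ A, yp P r T p

/-- the two-sided Dirichlet polynomial `∑_{(A,B)} a(A) a(B) (n_B / n_A)^{it}` -/
noncomputable def EE (P : Par) (B0 : ℕ) (r : ℝ) (F : ℕ → ℝ) (T t : ℝ) : ℂ :=
  ∑ q ∈ prs P B0 T, ((ae P r F T q.1 * ae P r F T q.2 : ℝ) : ℂ) *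
    cexp (I * ((t * (Real.log (nA q.2) - Real.log (nA q.1)) : ℝ) : ℂ))

/-- the diagonal of `|E|² n^{-it}` -/
noncomputable def Cn (P : Par) (B0 : ℕ) (r : ℝ) (F : ℕ → ℝ) (T : ℝ) (n : ℕ) : ℝ :=
  ∑ q ∈ prs P B0 T, ∑ q' ∈ prs P B0 T,
    if nA q.2 * nA q'.1 = n * (nA q.1 * nA q'.2) then
      (ae P r F T q.1 * ae P r F T q.2) * (ae P r F T q'.1 * ae P r F T q'.2) else 0

/-- sum of `∏ y_p²` over the sets of energy `n` -/
noncomputable def QT (P : Par) (r T : ℝ) (n : ℕ) : ℝ :=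
  ∑ A ∈ (PS P T).powerset.filter (fun A => ∑ p ∈ A, Eb P T p = n), ∏ p ∈ A, yp P r T p ^ 2

/-! ### limits -/

noncomputable def tm (P : Par) (r : ℝ) (m : ℕ) : ℝ :=
  m * r ^ 2 * ∫ u in (0 : ℝ)..1, u * P.b m u ^ 2

noncomputable def sm (P : Par) (A c : ℝ) (m : ℕ) : ℝ :=
  ∫ u in (0 : ℝ)..1, P.b m u * Real.sin (Real.pi * c * u) * Real.exp (-(u / A) ^ 2 / 2)

noncomputable def sm0 (P : Par) (c : ℝ) (m : ℕ) : ℝ :=
  ∫ u in (0 : ℝ)..1, P.b m u * Real.sin (Real.pi * c * u)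

/-- `q` is the sequence with `q 0 = 1`, `n q_n = ∑_{m=1}^n t_m q_{n-m}` up to `n = N` -/
def IsQ (N : ℕ) (t q : ℕ → ℝ) : Prop :=
  q 0 = 1 ∧ ∀ n : ℕ, 1 ≤ n → n ≤ N → (n : ℝ) * q n = ∑ m ∈ Finset.Icc 1 n, t m * q (n - m)

noncomputable def SF (B0 : ℕ) (F q : ℕ → ℝ) : ℝ := ∑ n ∈ Finset.range (B0 + 1), F n ^ 2 * q n

noncomputable def SM (B0 : ℕ) (F q : ℕ → ℝ) (m : ℕ) : ℝ :=
  ∑ n ∈ Finset.range (B0 + 1 - m), F n * F (n + m) * q n

end LG
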