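import Pool.Agent.H297R2.LG.Mom1
import Pool.Agent.H613R2.LG.Comb0
import Pool.Agent.H153R2.LGPsum
import Pool.Agent.H880R2.LG.Mean
import Pool.Agent.H793R2.LG.GapTail2
import Pool.Agent.H403R2.LGLocal
import Pool.Agent.H506R2.LG.Pos
import Pool.Agent.H778R2.LG.Par
import Pool.Agent.H520R2.LG.Ideal

/-! Positive proportion of large gaps: assembly. -/

open Complex Filter Topology Set MeasureTheory

namespace LG

open SG (hh nn dd dl ord NZ)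
open SP (RHs ZZ mu wt Mk Par Eb PS chi qq tt)

theorem LOCAL (hRH : RHs) (P : Par) (B0 : ℕ) (hB : P.B = 2 * B0) (r : ℝ) (hr : 0 < r)
    (F q : ℕ → ℝ) (hq : IsQ B0 (tm P r) q) (c : ℝ) (hc : 0 < c) (hSF : 0 < SF B0 F q)
    (hstrict : c * SF B0 F q < SF B0 F q +
      4 * r / Real.pi * ∑ m ∈ Finset.Icc 2 B0, sm0 P c m * SM B0 F q m) :
    ∃ η ε K T0 : ℝ, 0 < η ∧ 0 < ε ∧ 1 ≤ K ∧ 10 ≤ T0 ∧ ∀ T : ℝ, T0 ≤ T →
    ∀ t0 : ℝ, 11 / 10 * T ≤ t0 → t0 ≤ 19 / 10 * T →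
    ε * dd P.κ T * Real.log T ≤ ({n : ℕ | 1 ≤ n ∧ |ord n - t0| ≤ K * dd P.κ T ∧
      2 * Real.pi * (c + η) / Real.log T < ord (n + 1) - ord n}.ncard : ℝ) :=
  LOCAL_of P B0 r F q (fun A c hA hc => MEAN hRH P B0 hB r F A c hA hc)
    (COMB1 P B0 hB r hr F q hq)
    (fun A c hA hc => COMB2_of P B0 hB r hr F q hq A c (PSUM P A c hA hc)
      (PSUM_abs P A c hA hc))
    (MOM hRH P B0 hB r hr F) (fun ε hε => GAPTAIL hRH P.κ P.hκ P.hκ1 ε hε) c hc hSF hstrict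

theorem POS (hRH : RHs) (P : Par) (B0 : ℕ) (hB : P.B = 2 * B0) (r : ℝ) (hr : 0 < r)
    (F q : ℕ → ℝ) (hq : IsQ B0 (tm P r) q) (c : ℝ) (hc : 0 < c) (hSF : 0 < SF B0 F q)
    (hstrict : c * SF B0 F q < SF B0 F q +
      4 * r / Real.pi * ∑ m ∈ Finset.Icc 2 B0, sm0 P c m * SM B0 F q m) :
    ∃ ε : ℝ, 0 < ε ∧ ∀ᶠ N : ℕ in atTop, ε * N ≤
      (({n : ℕ | 1 ≤ n ∧ n ≤ N ∧
        c < (ord (n + 1) - ord n) / (2 * Real.pi) * Real.log (ord n / (2 * Real.pi))}.ncard : ℕ) : ℝ) :=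
  POS_of_local P.κ P.hκ c hc (LOCAL hRH P B0 hB r hr F q hq c hc hSF hstrict)

theorem PAR : ∃ (P : Par) (B0 : ℕ) (r : ℝ) (F q : ℕ → ℝ), P.B = 2 * B0 ∧ 0 < r ∧
    IsQ B0 (tm P r) q ∧ 0 < SF B0 F q ∧
    (357 / 100) * SF B0 F q < SF B0 F q +
      4 * r / Real.pi * ∑ m ∈ Finset.Icc 2 B0, sm0 P (357 / 100) m * SM B0 F q m :=
  PAR_of_ideal IDEAL

/-- **main theorem**: on RH a positive proportion of the normalised gaps exceed `3.57` -/
theorem FINAL (hRH : RHs) :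
    ∃ ε : ℝ, 0 < ε ∧ ∀ᶠ N : ℕ in atTop, ε * N ≤
      (({n : ℕ | 1 ≤ n ∧ n ≤ N ∧
        357 / 100 < (ord (n + 1) - ord n) / (2 * Real.pi) *
          Real.log (ord n / (2 * Real.pi))}.ncard : ℕ) : ℝ) := by
  obtain ⟨P, B0, r, F, q, h1, h2, h3, h4, h5⟩ := PAR
  exact POS hRH P B0 h1 r h2 F q h3 _ (by norm_num) h4 h5

/-- the same for `δ_n = (γ_{n+1} log γ_{n+1} - γ_n log γ_n) / 2π` -/
theorem FINAL_delta (hRH : RHs) :
    ∃ ε : ℝ, 0 < ε ∧ ∀ᶠ N : ℕ in atTop, ε * N ≤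
      (({n : ℕ | 1 ≤ n ∧ n ≤ N ∧
        357 / 100 < (ord (n + 1) * Real.log (ord (n + 1)) - ord n * Real.log (ord n)) /
          (2 * Real.pi)}.ncard : ℕ) : ℝ) := by
  obtain ⟨ε, hε, h⟩ := FINAL hRH
  refine ⟨ε, hε, ?_⟩
  filter_upwards [h] with N hN
  refine hN.trans ?_
  have hpi := Real.pi_gt_three
  have hsub : {n : ℕ | 1 ≤ n ∧ n ≤ N ∧
        357 / 100 < (ord (n + 1) - ord n) / (2 * Real.pi) *
          Real.log (ord n / (2 * Real.pi))} ⊆ {n : ℕ | 1 ≤ n ∧ n ≤ N ∧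
        357 / 100 < (ord (n + 1) * Real.log (ord (n + 1)) - ord n * Real.log (ord n)) /
          (2 * Real.pi)} := by
    rintro n ⟨h1, h2, h3⟩
    refine ⟨h1, h2, h3.trans_le ?_⟩
    have hp : 0 < ord n := SG.ord_pos h1
    have hp' : 0 < ord (n + 1) := SG.ord_pos (by omega)
    have h7 : ord n ≤ ord (n + 1) := SG.ord_mono h1 (by omega)
    have h8 : Real.log (ord n / (2 * Real.pi)) ≤ Real.log (ord n) := by
      apply Real.log_le_log (by positivity)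
      apply div_le_self hp.le
      linarith
    have h9 : Real.log (ord n) ≤ Real.log (ord (n + 1)) := Real.log_le_log hp h7
    rw [div_mul_eq_mul_div]
    apply div_le_div_of_nonneg_right _ (by positivity)
    have h10 : (ord (n + 1) - ord n) * Real.log (ord n / (2 * Real.pi)) ≤
        (ord (n + 1) - ord n) * Real.log (ord n) :=
      mul_le_mul_of_nonneg_left h8 (by linarith)
    have h11 : ord (n + 1) * Real.log (ord n) ≤ ord (n + 1) * Real.log (ord (n + 1)) :=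
      mul_le_mul_of_nonneg_left h9 hp'.le
    linarith
  exact_mod_cast Set.ncard_le_ncard hsub
    ((Set.finite_Iic N).subset (fun n hn => hn.2.1))

end LG
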