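import Pool.Agent.H297R2.LG.Defs

/-! Inclusion–exclusion for the two-sided polynomial `EE`. -/

open Complex Filter Topology Set MeasureTheory

namespace LG

open SG (hh nn dd dl ord NZ)
open SP (RHs ZZ mu wt Mk Par Eb PS chi qq tt)

namespace MomA

/-- energy -/
noncomputable def en (P : Par) (T : ℝ) (A : Finset ℕ) : ℕ := ∑ p ∈ A, Eb P T p

/-- the unimodular twist of the coefficient of a prime -/
noncomputable def ww (P : Par) (r T t : ℝ) (p : ℕ) : ℂ :=
  (yp P r T p : ℂ) * cexp (I * ((t * Real.log p : ℝ) : ℂ))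

noncomputable def zz (P : Par) (r : ℝ) (F : ℕ → ℝ) (T t : ℝ) (A : Finset ℕ) : ℂ :=
  (F (en P T A) : ℂ) * ∏ p ∈ A, ww P r T t p

lemma mem_fam {P : Par} {B0 : ℕ} {T : ℝ} {A : Finset ℕ} :
    A ∈ fam P B0 T ↔ A ⊆ PS P T ∧ en P T A ≤ B0 := by
  unfold fam en
  rw [Finset.mem_filter, Finset.mem_powerset]

lemma prime_of_mem {P : Par} {T : ℝ} {p : ℕ} (hp : p ∈ PS P T) : p.Prime ∧ 2 ≤ Eb P T p := by
  unfold PS at hp
  rw [Finset.mem_filter] at hp
  exact hp.2

lemma log_nA {P : Par} {T : ℝ} {A : Finset ℕ} (hA : A ⊆ PS P T) :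
    Real.log (nA A) = ∑ p ∈ A, Real.log p := by
  unfold nA
  push_cast
  rw [Real.log_prod]
  intro p hp
  have := (prime_of_mem (hA hp)).1.pos
  positivity

lemma zz_eq {P : Par} {r : ℝ} {F : ℕ → ℝ} {T t : ℝ} {A : Finset ℕ} (hA : A ⊆ PS P T) :
    zz P r F T t A = (ae P r F T A : ℂ) * cexp (I * ((t * Real.log (nA A) : ℝ) : ℂ)) := by
  unfold zz ae ww en
  rw [log_nA hA, Finset.prod_mul_distrib]
  push_cast
  rw [Finset.mul_sum, Finset.mul_sum, Complex.exp_sum]
  ring

lemma conj_exp (x : ℝ) : (starRingEnd ℂ) (cexp (I * (x : ℂ))) = cexp (-(I * (x : ℂ))) := by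
  rw [← Complex.exp_conj]
  congr 1
  simp

/-- the sum over the sets containing `C` -/
noncomputable def DC (P : Par) (B0 : ℕ) (r : ℝ) (F : ℕ → ℝ) (T t : ℝ) (C : Finset ℕ) : ℂ :=
  ∑ A ∈ (fam P B0 T).filter (fun A => C ⊆ A), zz P r F T t A

lemma EE_zz (P : Par) (B0 : ℕ) (r : ℝ) (F : ℕ → ℝ) (T t : ℝ) :
    EE P B0 r F T t = ∑ A ∈ fam P B0 T, ∑ B ∈ fam P B0 T,
      if Disjoint A B then zz P r F T t B * (starRingEnd ℂ) (zz P r F T t A) else 0 := by
  unfold EE prs
  rw [Finset.sum_filter, Finset.sum_product]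
  apply Finset.sum_congr rfl
  intro A hA
  apply Finset.sum_congr rfl
  intro B hB
  split_ifs with h
  · rw [zz_eq (mem_fam.mp hA).1, zz_eq (mem_fam.mp hB).1, map_mul, conj_exp, Complex.conj_ofReal]
    have : cexp (I * ((t * (Real.log (nA B) - Real.log (nA A)) : ℝ) : ℂ)) =
        cexp (I * ((t * Real.log (nA B) : ℝ) : ℂ)) * cexp (-(I * ((t * Real.log (nA A) : ℝ) : ℂ))) := by
      rw [← Complex.exp_add]
      congr 1
      push_cast
      ring
    simp only [this]
    push_cast
    ring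
  · rfl

lemma incl_excl (A B : Finset ℕ) :
    (if Disjoint A B then (1 : ℂ) else 0) = ∑ C ∈ (A ∩ B).powerset, (-1 : ℂ) ^ C.card := by
  have h := Finset.sum_powerset_neg_one_pow_card (x := A ∩ B)
  have h2 : (∑ C ∈ (A ∩ B).powerset, (-1 : ℂ) ^ C.card) =
      ((∑ C ∈ (A ∩ B).powerset, (-1 : ℤ) ^ C.card : ℤ) : ℂ) := by
    push_cast
    rfl
  rw [h2, h]
  by_cases hd : Disjoint A B
  · rw [if_pos hd, if_pos (Finset.disjoint_iff_inter_eq_empty.mp hd)]
    simp
  · rw [if_neg hd, if_neg (fun h => hd (Finset.disjoint_iff_inter_eq_empty.mpr h))]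
    simp

theorem EE_eq (P : Par) (B0 : ℕ) (r : ℝ) (F : ℕ → ℝ) (T t : ℝ) :
    EE P B0 r F T t = ∑ C ∈ fam P B0 T, (-1 : ℂ) ^ C.card *
      (DC P B0 r F T t C * (starRingEnd ℂ) (DC P B0 r F T t C)) := by
  rw [EE_zz]
  have h1 : ∀ A ∈ fam P B0 T, ∀ B ∈ fam P B0 T,
      (if Disjoint A B then zz P r F T t B * (starRingEnd ℂ) (zz P r F T t A) else 0) =
      ∑ C ∈ fam P B0 T, if (C ⊆ A ∧ C ⊆ B) then
        (-1 : ℂ) ^ C.card * (zz P r F T t B * (starRingEnd ℂ) (zz P r F T t A)) else 0 := by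
    intro A hA B hB
    have h2 : (if Disjoint A B then zz P r F T t B * (starRingEnd ℂ) (zz P r F T t A) else 0) =
        (if Disjoint A B then (1 : ℂ) else 0) *
          (zz P r F T t B * (starRingEnd ℂ) (zz P r F T t A)) := by
      split_ifs <;> simp
    rw [h2, incl_excl, Finset.sum_mul, ← Finset.sum_filter]
    apply Finset.sum_congr _ (fun _ _ => rfl)
    ext C
    rw [Finset.mem_powerset, Finset.mem_filter, Finset.subset_inter_iff]
    constructor
    · intro h
      refine ⟨?_, h⟩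
      rw [mem_fam] at hA ⊢
      refine ⟨h.1.trans hA.1, le_trans ?_ hA.2⟩
      exact Finset.sum_le_sum_of_subset h.1
    · exact fun h => h.2
  rw [Finset.sum_congr rfl (fun A hA => Finset.sum_congr rfl (fun B hB => h1 A hA B hB))]
  rw [Finset.sum_congr rfl (fun A _ => Finset.sum_comm), Finset.sum_comm]
  apply Finset.sum_congr rfl
  intro C _
  unfold DC
  rw [map_sum, Finset.sum_mul_sum, Finset.sum_filter, Finset.mul_sum]
  rw [Finset.sum_comm]
  apply Finset.sum_congr rfl
  intro B _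
  by_cases hCB : C ⊆ B
  · simp only [hCB, and_true, if_true]
    rw [Finset.sum_filter, Finset.mul_sum]
    apply Finset.sum_congr rfl
    intro A _
    split_ifs <;> simp
  · simp only [hCB, and_false, if_false, Finset.sum_const_zero, mul_zero]

/-- factorisation of `DC` -/
theorem DC_eq (P : Par) (B0 : ℕ) (r : ℝ) (F : ℕ → ℝ) (T t : ℝ) (C : Finset ℕ)
    (hC : C ∈ fam P B0 T) :
    DC P B0 r F T t C = (∏ p ∈ C, ww P r T t p) *
      ∑ n ∈ Finset.range (B0 - en P T C + 1), (F (en P T C + n) : ℂ) *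
        qq (PS P T \ C) (Eb P T) (ww P r T t) n := by
  obtain ⟨hC1, hC2⟩ := mem_fam.mp hC
  have hen : ∀ B : Finset ℕ, Disjoint C B → en P T (C ∪ B) = en P T C + en P T B := by
    intro B hB
    unfold en
    exact Finset.sum_union hB
  have h1 : DC P B0 r F T t C = ∑ B ∈ ((PS P T \ C).powerset).filter
      (fun B => en P T C + en P T B ≤ B0), zz P r F T t (C ∪ B) := by
    unfold DC
    apply Finset.sum_bij' (fun A _ => A \ C) (fun B _ => C ∪ B)
    · intro A hA
      rw [Finset.mem_filter, mem_fam] at hA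
      rw [Finset.mem_filter, Finset.mem_powerset]
      refine ⟨Finset.sdiff_subset_sdiff hA.1.1 (le_refl _), ?_⟩
      rw [← hen _ Finset.disjoint_sdiff, Finset.union_sdiff_of_subset hA.2]
      exact hA.1.2
    · intro B hB
      rw [Finset.mem_filter, Finset.mem_powerset] at hB
      have hd : Disjoint C B := by
        rw [Finset.disjoint_left]
        intro x hx hxB
        have := hB.1 hxB
        rw [Finset.mem_sdiff] at this
        exact this.2 hx
      rw [Finset.mem_filter, mem_fam]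
      refine ⟨⟨Finset.union_subset hC1 (hB.1.trans Finset.sdiff_subset), ?_⟩,
        Finset.subset_union_left⟩
      rw [hen _ hd]
      exact hB.2
    · intro A hA
      rw [Finset.mem_filter] at hA
      exact Finset.union_sdiff_of_subset hA.2
    · intro B hB
      rw [Finset.mem_filter, Finset.mem_powerset] at hB
      ext x
      rw [Finset.mem_sdiff, Finset.mem_union]
      constructor
      · rintro ⟨h | h, h'⟩
        · exact absurd h h'
        · exact h
      · intro h
        have := hB.1 h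
        rw [Finset.mem_sdiff] at this
        exact ⟨Or.inr h, this.2⟩
    · intro A hA
      rw [Finset.mem_filter] at hA
      rw [Finset.union_sdiff_of_subset hA.2]
  rw [h1]
  have h2 : ∀ B ∈ ((PS P T \ C).powerset).filter (fun B => en P T C + en P T B ≤ B0),
      zz P r F T t (C ∪ B) = ∑ n ∈ Finset.range (B0 - en P T C + 1),
        if en P T B = n then (∏ p ∈ C, ww P r T t p) * ((F (en P T C + n) : ℂ) *
          ∏ p ∈ B, ww P r T t p) else 0 := by
    intro B hB
    rw [Finset.mem_filter, Finset.mem_powerset] at hB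
    have hd : Disjoint C B := by
      rw [Finset.disjoint_left]
      intro x hx hxB
      have := hB.1 hxB
      rw [Finset.mem_sdiff] at this
      exact this.2 hx
    rw [Finset.sum_ite_eq, if_pos (by rw [Finset.mem_range]; omega)]
    unfold zz
    rw [hen _ hd, Finset.prod_union hd]
    ring
  rw [Finset.sum_congr rfl h2, Finset.sum_comm, Finset.mul_sum]
  apply Finset.sum_congr rfl
  intro n hn
  rw [Finset.mem_range] at hn
  unfold qq
  rw [← Finset.sum_filter, Finset.filter_filter, Finset.mul_sum, Finset.mul_sum]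
  apply Finset.sum_congr
  · ext B
    rw [Finset.mem_filter, Finset.mem_filter]
    constructor
    · rintro ⟨h3, h4, h5⟩
      exact ⟨h3, h5⟩
    · rintro ⟨h3, h5⟩
      have h6 : en P T B = n := h5
      exact ⟨h3, by omega, h6⟩
  · intro B _
    rfl

end MomA

end LG
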