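import Pool.Agent.H297R2.LG.Mom0
import Pool.Agent.H851R2.LG.Sets
import Pool.Agent.H382P.DpB
import Pool.Agent.H382P.Mom2

/-! Fourth moment of `EE`. -/

open Complex Filter Topology Set MeasureTheory

namespace LG

open SG (hh nn dd dl ord NZ)
open SP (RHs ZZ mu wt Mk Par Eb PS chi qq tt)

namespace MomA

lemma norm_ww (P : Par) (r T t : ℝ) (p : ℕ) : ‖ww P r T t p‖ = |yp P r T p| := by
  unfold ww
  rw [norm_mul, Complex.norm_real, Real.norm_eq_abs, mul_comm I, Complex.norm_exp_ofReal_mul_I,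
    mul_one]

/-- the twist in terms of the complex power of TEAM SG, conjugated -/
lemma ww_conj (P : Par) (r T t : ℝ) (p : ℕ) (hp : 1 ≤ p) :
    (starRingEnd ℂ) (ww P r T t p) = (r : ℂ) * ((chi P T p : ℂ) *
      (p : ℂ) ^ (hh (dl P.c T) - (⟨1 / 2, t + dl P.c T / 2⟩ : ℂ))) := by
  have hp0 : (0 : ℝ) < p := by exact_mod_cast hp
  have h1 : hh (dl P.c T) - (⟨1 / 2, t + dl P.c T / 2⟩ : ℂ) = -(1 / 2 : ℂ) + -(I * t) := by
    apply Complex.ext
    · simp [hh]
    · simp [hh]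
  rw [h1, Complex.cpow_add _ _ (by exact_mod_cast hp0.ne')]
  unfold ww yp
  rw [map_mul, conj_exp, Complex.conj_ofReal]
  have h2 : (p : ℂ) ^ (-(1 / 2 : ℂ)) = ((1 / Real.sqrt p : ℝ) : ℂ) := by
    have : ((p : ℝ) : ℂ) ^ ((-(1 / 2) : ℝ) : ℂ) = (((p : ℝ) ^ (-(1 / 2) : ℝ) : ℝ) : ℂ) :=
      (Complex.ofReal_cpow hp0.le _).symm
    push_cast at this
    have h3 : (p : ℂ) ^ (-(1 / 2 : ℂ)) = (((p : ℝ) ^ (-(1 / 2) : ℝ) : ℝ) : ℂ) := by
      rw [← this]
    rw [h3, Real.rpow_neg hp0.le, ← Real.sqrt_eq_rpow, one_div]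
  have h4 : (p : ℂ) ^ (-(I * (t : ℂ))) = cexp (-(I * ((t * Real.log p : ℝ) : ℂ))) := by
    rw [Complex.cpow_def_of_ne_zero (by exact_mod_cast hp0.ne')]
    congr 1
    rw [← Complex.ofReal_natCast, ← Complex.ofReal_log hp0.le]
    push_cast
    ring
  rw [h2, h4]
  push_cast
  ring

/-- bound for the power sums over `PS \ C` -/
theorem tt_bound (hRH : RHs) (P : Par) (B0 : ℕ) (hB : P.B = 2 * B0) (r : ℝ) (hr : 0 < r) :
    ∃ K T0 : ℝ, 1 ≤ K ∧ 10 ≤ T0 ∧ ∀ T : ℝ, T0 ≤ T → ∀ t : ℝ,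
    T + 2 * Real.log T ≤ t → t ≤ 2 * T - 2 * Real.log T → ∀ C ∈ fam P B0 T,
    ∀ m, 1 ≤ m → m ≤ P.B →
    ‖tt (PS P T \ C) (Eb P T) (ww P r T t) m‖ ≤ K * (1 + Mk T 1 t) := by
  obtain ⟨C1, T1, hC1, hT1, h1⟩ := SP.Pj_bound hRH P
  obtain ⟨C2, T2, hC2, hT2, h2⟩ := SP.chi_approx P
  obtain ⟨C3, T3, hC3, hT3, h3⟩ := fam_facts P B0 hB r (fun _ => 1)
  refine ⟨1 + P.B * (r * C1 + B0) + P.B * (C3 * C2), max (max T1 T2) (max T3 (Real.exp 20)), ?_, ?_, ?_⟩
  · have : (0:ℝ) ≤ P.B * (r * C1 + B0) := by positivity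
    have : (0:ℝ) ≤ P.B * (C3 * C2) := by positivity
    linarith
  · exact hT1.trans ((le_max_left _ _).trans (le_max_left _ _))
  intro T hT t ht ht' C hC m hm hmB
  simp only [max_le_iff] at hT
  obtain ⟨⟨hTT1, hTT2⟩, hTT3, hTe⟩ := hT
  have hT10 : 10 ≤ T := hT1.trans hTT1
  have hL20 : 20 ≤ Real.log T := by
    rw [Real.le_log_iff_exp_le (by linarith)]; exact hTe
  obtain ⟨hchi, hsum⟩ := h2 T hTT2
  obtain ⟨hf1, hf2, -, -⟩ := h3 T hTT3
  set M := Mk T 1 t with hM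
  have hM0 : 0 ≤ M := SP.DpB_Mk_nonneg _ _ _
  have hdl0 : 0 ≤ dl P.c T := by
    unfold dl
    have := P.hc
    have := Real.pi_pos
    positivity
  have hdl1 : dl P.c T ≤ 1 := by
    unfold dl
    rw [div_le_one (by linarith)]
    have := P.hc1
    have := P.hc
    have := Real.pi_lt_four
    nlinarith [Real.pi_pos]
  have hP := h1 T hTT1 (t + dl P.c T / 2) (by linarith) (by linarith) m
  have e0 : t + dl P.c T / 2 - dl P.c T / 2 = t := by ring
  rw [e0, ← hM] at hP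
  obtain ⟨hC1', hC2'⟩ := mem_fam.mp hC
  set y : ℕ → ℂ := ww P r T t with hy
  have hmem : ∀ p ∈ PS P T, 1 ≤ p ∧ p.Prime ∧ 2 ≤ Eb P T p := by
    intro p hp
    have := prime_of_mem hp
    exact ⟨this.1.one_lt.le, this.1, this.2⟩
  have hy1 : ∀ p ∈ PS P T, ‖y p‖ ≤ 1 := by
    intro p hp
    rw [hy, norm_ww]
    exact (hf2 p hp).1
  have hy2 : ∀ p ∈ PS P T, ‖y p‖ ^ 2 ≤ C3 * (1 / p) := by
    intro p hp
    rw [hy, norm_ww, sq_abs]
    have := (hf2 p hp).2.1
    rwa [mul_one_div]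
  have hsplit : tt (PS P T \ C) (Eb P T) y m =
      (∑ p ∈ (PS P T \ C).filter (fun p => Eb P T p = m), (m : ℂ) * y p) +
      ∑ p ∈ (PS P T \ C).filter (fun p => ¬ Eb P T p = m),
        if Eb P T p ∣ m then (-1 : ℂ) ^ (m / Eb P T p - 1) * (Eb P T p : ℂ) *
          y p ^ (m / Eb P T p) else 0 := by
    unfold tt
    rw [← Finset.sum_filter_add_sum_filter_not (PS P T \ C) (fun p => Eb P T p = m)]
    congr 1
    apply Finset.sum_congr rfl
    intro p hp
    rw [Finset.mem_filter] at hp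
    rw [hp.2]
    simp [Nat.div_self hm]
  rw [hsplit]
  have hA : ‖∑ p ∈ (PS P T \ C).filter (fun p => Eb P T p = m), (m : ℂ) * y p‖ ≤
      P.B * (r * C1 + B0) * (1 + M) := by
    rw [← Finset.mul_sum, norm_mul, Complex.norm_natCast]
    have h5 : ‖∑ p ∈ (PS P T).filter (fun p => Eb P T p = m), y p‖ ≤ r * (C1 * (1 + M)) := by
      have h6 : (starRingEnd ℂ) (∑ p ∈ (PS P T).filter (fun p => Eb P T p = m), y p) =
          (r : ℂ) * ∑ p ∈ (PS P T).filter (fun p => Eb P T p = m), (chi P T p : ℂ) *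
            (p : ℂ) ^ (hh (dl P.c T) - (⟨1 / 2, t + dl P.c T / 2⟩ : ℂ)) := by
        rw [map_sum, Finset.mul_sum]
        apply Finset.sum_congr rfl
        intro p hp
        rw [Finset.mem_filter] at hp
        exact ww_conj P r T t p (hmem p hp.1).1
      rw [← RCLike.norm_conj, h6, norm_mul, Complex.norm_real, Real.norm_eq_abs, abs_of_pos hr]
      exact mul_le_mul_of_nonneg_left hP hr.le
    have h7 : ∑ p ∈ (PS P T \ C).filter (fun p => Eb P T p = m), y p =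
        ∑ p ∈ (PS P T).filter (fun p => Eb P T p = m), y p -
          ∑ p ∈ C.filter (fun p => Eb P T p = m), y p := by
      rw [eq_sub_iff_add_eq, ← Finset.sum_union]
      · apply Finset.sum_congr _ (fun _ _ => rfl)
        rw [← Finset.filter_union, Finset.sdiff_union_of_subset hC1']
      · apply Finset.disjoint_filter_filter
        exact Finset.sdiff_disjoint
    have h8 : ‖∑ p ∈ C.filter (fun p => Eb P T p = m), y p‖ ≤ B0 := by
      calc _ ≤ ∑ p ∈ C.filter (fun p => Eb P T p = m), ‖y p‖ := norm_sum_le _ _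
        _ ≤ ∑ p ∈ C.filter (fun p => Eb P T p = m), 1 := by
            apply Finset.sum_le_sum
            intro p hp
            rw [Finset.mem_filter] at hp
            exact hy1 p (hC1' hp.1)
        _ = ((C.filter (fun p => Eb P T p = m)).card : ℝ) := by simp
        _ ≤ B0 := by
            have := (hf1 C hC).2.2.2
            exact_mod_cast (Finset.card_filter_le _ _).trans this
    rw [h7]
    have h9 := (norm_sub_le (∑ p ∈ (PS P T).filter (fun p => Eb P T p = m), y p)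
          (∑ p ∈ C.filter (fun p => Eb P T p = m), y p)).trans (add_le_add h5 h8)
    calc (m : ℝ) * _ ≤ P.B * (r * (C1 * (1 + M)) + B0) := by
          apply mul_le_mul (by exact_mod_cast hmB) h9 (norm_nonneg _) (by positivity)
      _ ≤ P.B * (r * C1 + B0) * (1 + M) := by
          have e1 : (0 : ℝ) ≤ P.B * B0 * M := by positivity
          nlinarith
  have hBd : ‖∑ p ∈ (PS P T \ C).filter (fun p => ¬ Eb P T p = m),
        if Eb P T p ∣ m then (-1 : ℂ) ^ (m / Eb P T p - 1) * (Eb P T p : ℂ) *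
          y p ^ (m / Eb P T p) else 0‖ ≤ P.B * (C3 * C2) := by
    calc _ ≤ ∑ p ∈ (PS P T \ C).filter (fun p => ¬ Eb P T p = m),
          ‖if Eb P T p ∣ m then (-1 : ℂ) ^ (m / Eb P T p - 1) * (Eb P T p : ℂ) *
            y p ^ (m / Eb P T p) else 0‖ := norm_sum_le _ _
      _ ≤ ∑ p ∈ (PS P T \ C).filter (fun p => ¬ Eb P T p = m), P.B * (C3 * (1 / p : ℝ)) := by
        apply Finset.sum_le_sum
        intro p hp
        rw [Finset.mem_filter, Finset.mem_sdiff] at hp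
        obtain ⟨hp1, hpp, hE2⟩ := hmem p hp.1.1
        have hpB : (0:ℝ) ≤ P.B * (C3 * (1 / p : ℝ)) := by positivity
        split_ifs with hd
        · obtain ⟨j, hj⟩ := hd
          have hEpos : 0 < Eb P T p := by omega
          have hdiv : m / Eb P T p = j := by rw [hj]; exact Nat.mul_div_cancel_left j hEpos
          have hj2 : 2 ≤ j := by
            by_contra hlt
            have : j = 0 ∨ j = 1 := by omega
            rcases this with h | h
            · rw [h] at hj; omega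
            · rw [h, mul_one] at hj; exact hp.2 hj.symm
          rw [hdiv, norm_mul, norm_mul, norm_pow, norm_neg, norm_one, one_pow, one_mul,
            Complex.norm_natCast, norm_pow]
          have hyr : ‖y p‖ ^ j ≤ C3 * (1 / p : ℝ) :=
            (pow_le_pow_of_le_one (norm_nonneg _) (hy1 p hp.1.1) hj2).trans (hy2 p hp.1.1)
          apply mul_le_mul _ hyr (by positivity) (by positivity)
          exact_mod_cast (hchi p hp.1.1).1
        · rw [norm_zero]; exact hpB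
      _ ≤ ∑ p ∈ PS P T, P.B * (C3 * (1 / p : ℝ)) := by
        apply Finset.sum_le_sum_of_subset_of_nonneg
          ((Finset.filter_subset _ _).trans Finset.sdiff_subset)
        intro p _ _
        positivity
      _ = P.B * (C3 * ∑ p ∈ PS P T, (1 / p : ℝ)) := by rw [Finset.mul_sum, Finset.mul_sum]
      _ ≤ P.B * (C3 * C2) := by gcongr
  calc _ ≤ P.B * (r * C1 + B0) * (1 + M) + P.B * (C3 * C2) :=
        le_trans (norm_add_le _ _) (add_le_add hA hBd)
    _ ≤ _ := by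
      have e1 : 0 ≤ (P.B : ℝ) * (C3 * C2) := by positivity
      have e2 := mul_nonneg e1 hM0
      nlinarith

/-- bound of a bounded function on a range -/
lemma F_bound (F : ℕ → ℝ) (N : ℕ) : ∃ K : ℝ, 0 < K ∧ ∀ n, n ≤ N → |F n| ≤ K := by
  refine ⟨∑ n ∈ Finset.range (N + 1), |F n| + 1, by positivity, ?_⟩
  intro n hn
  have := Finset.single_le_sum (f := fun n => |F n|) (fun i _ => abs_nonneg (F i))
    (Finset.mem_range.mpr (by omega : n < N + 1))
  linarith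

end MomA

open MomA

theorem EE_bound (hRH : RHs) (P : Par) (B0 : ℕ) (hB : P.B = 2 * B0) (r : ℝ) (hr : 0 < r)
    (F : ℕ → ℝ) : ∃ C T0 : ℝ, 0 < C ∧ 10 ≤ T0 ∧ ∀ T : ℝ, T0 ≤ T → ∀ t : ℝ,
    T + 2 * Real.log T ≤ t → t ≤ 2 * T - 2 * Real.log T →
    ‖EE P B0 r F T t‖ ≤ C * (1 + Mk T 1 t) ^ (2 * B0) := by
  obtain ⟨K, T1, hK, hT1, h1⟩ := tt_bound hRH P B0 hB r hr
  obtain ⟨C3, T3, hC3, hT3, h3⟩ := fam_facts P B0 hB r (fun _ => 1)
  obtain ⟨KF, hKF, hF⟩ := F_bound F B0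
  refine ⟨C3 * ((B0 + 1) * KF * K ^ B0) ^ 2, max T1 T3, by positivity,
    hT1.trans (le_max_left _ _), ?_⟩
  intro T hT t ht ht'
  simp only [max_le_iff] at hT
  obtain ⟨hTT1, hTT3⟩ := hT
  obtain ⟨-, -, -, hX⟩ := h3 T hTT3
  set M := Mk T 1 t with hM
  have hM0 : 0 ≤ M := SP.DpB_Mk_nonneg _ _ _
  have hKM : 1 ≤ K * (1 + M) := by nlinarith
  have hD : ∀ C ∈ fam P B0 T, ‖DC P B0 r F T t C‖ ≤
      (∏ p ∈ C, |yp P r T p|) * ((B0 + 1) * KF * (K * (1 + M)) ^ B0) := by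
    intro C hC
    obtain ⟨hC1, hC2⟩ := mem_fam.mp hC
    rw [DC_eq P B0 r F T t C hC, norm_mul, norm_prod]
    have e1 : ∏ p ∈ C, ‖ww P r T t p‖ = ∏ p ∈ C, |yp P r T p| :=
      Finset.prod_congr rfl (fun p _ => norm_ww P r T t p)
    rw [e1]
    apply mul_le_mul_of_nonneg_left _ (Finset.prod_nonneg (fun p _ => abs_nonneg _))
    have hE : ∀ p ∈ PS P T \ C, 1 ≤ Eb P T p := by
      intro p hp
      rw [Finset.mem_sdiff] at hp
      have := (prime_of_mem hp.1).2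
      omega
    obtain ⟨hq0, hq⟩ := SP.newton (PS P T \ C) (Eb P T) hE (ww P r T t)
    have hqn := SP.DpB.newton_growth (qq (PS P T \ C) (Eb P T) (ww P r T t))
      (tt (PS P T \ C) (Eb P T) (ww P r T t)) (K * (1 + M)) hKM B0 hq0
      (fun m hm hmB => h1 T hTT1 t ht ht' C hC m hm (by omega)) hq
    calc _ ≤ ∑ n ∈ Finset.range (B0 - en P T C + 1), ‖(F (en P T C + n) : ℂ) *
          qq (PS P T \ C) (Eb P T) (ww P r T t) n‖ := norm_sum_le _ _
      _ ≤ ∑ n ∈ Finset.range (B0 - en P T C + 1), KF * (K * (1 + M)) ^ B0 := by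
          apply Finset.sum_le_sum
          intro n hn
          rw [Finset.mem_range] at hn
          rw [norm_mul, Complex.norm_real, Real.norm_eq_abs]
          apply mul_le_mul (hF _ (by omega)) _ (norm_nonneg _) hKF.le
          exact (hqn n (by omega)).trans (pow_le_pow_right₀ hKM (by omega))
      _ = (B0 - en P T C + 1 : ℕ) * (KF * (K * (1 + M)) ^ B0) := by
          rw [Finset.sum_const, Finset.card_range, nsmul_eq_mul]
      _ ≤ ((B0 : ℝ) + 1) * (KF * (K * (1 + M)) ^ B0) := by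
          apply mul_le_mul_of_nonneg_right _ (by positivity)
          push_cast
          have : ((B0 - en P T C : ℕ) : ℝ) ≤ B0 := by exact_mod_cast Nat.sub_le _ _
          linarith
      _ = _ := by ring
  rw [EE_eq]
  calc _ ≤ ∑ C ∈ fam P B0 T, ‖(-1 : ℂ) ^ C.card *
      (DC P B0 r F T t C * (starRingEnd ℂ) (DC P B0 r F T t C))‖ := norm_sum_le _ _
    _ ≤ ∑ C ∈ fam P B0 T, (∏ p ∈ C, yp P r T p ^ 2) *
        ((B0 + 1) * KF * (K * (1 + M)) ^ B0) ^ 2 := by
        apply Finset.sum_le_sum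
        intro C hC
        rw [norm_mul, norm_pow, norm_neg, norm_one, one_pow, one_mul, norm_mul, RCLike.norm_conj,
          ← sq]
        have e1 : (∏ p ∈ C, yp P r T p ^ 2) = (∏ p ∈ C, |yp P r T p|) ^ 2 := by
          rw [← Finset.prod_pow]
          exact Finset.prod_congr rfl (fun p _ => (sq_abs _).symm)
        rw [e1, ← mul_pow]
        exact pow_le_pow_left₀ (norm_nonneg _) (hD C hC) 2
    _ = (∑ C ∈ fam P B0 T, ∏ p ∈ C, yp P r T p ^ 2) *
        ((B0 + 1) * KF * (K * (1 + M)) ^ B0) ^ 2 := by rw [Finset.sum_mul]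
    _ ≤ C3 * ((B0 + 1) * KF * (K * (1 + M)) ^ B0) ^ 2 := by gcongr
    _ = C3 * ((B0 + 1) * KF * K ^ B0) ^ 2 * (1 + M) ^ (2 * B0) := by
        rw [mul_pow K, mul_comm 2 B0, pow_mul]
        ring

lemma EE_continuous (P : Par) (B0 : ℕ) (r : ℝ) (F : ℕ → ℝ) (T : ℝ) :
    Continuous (EE P B0 r F T) := by
  unfold EE
  apply continuous_finsetSum
  intro q _
  apply Continuous.mul continuous_const
  apply Complex.continuous_exp.comp
  apply Continuous.mul continuous_const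
  apply Complex.continuous_ofReal.comp
  fun_prop

theorem MOM (hRH : RHs) (P : Par) (B0 : ℕ) (hB : P.B = 2 * B0) (r : ℝ) (hr : 0 < r)
    (F : ℕ → ℝ) : ∃ C T0 : ℝ, 0 < C ∧ 10 ≤ T0 ∧ ∀ T : ℝ, T0 ≤ T → ∀ t0 : ℝ,
    ∫ t in (T + 2 * Real.log T)..(2 * T - 2 * Real.log T),
      wt t0 (dd P.κ T) t * ‖EE P B0 r F T t‖ ^ 4 ≤ C * dd P.κ T := by
  obtain ⟨C1, T1, hC1, hT1, h1⟩ := EE_bound hRH P B0 hB r hr F
  obtain ⟨C2, T2, hC2, hT2, h2⟩ := SP.exp_main hRH P.κ 1 (8 * B0 + 1) P.hκ P.hκ1 one_pos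
    (by positivity)
  refine ⟨C1 ^ 4 * C2, max (max T1 T2) 100, by positivity,
    hT1.trans ((le_max_left _ _).trans (le_max_left _ _)), ?_⟩
  intro T hT t0
  simp only [max_le_iff] at hT
  obtain ⟨⟨hTT1, hTT2⟩, hT100⟩ := hT
  obtain ⟨hL4, hLT⟩ := SP.Mom2.log_bounds T hT100
  have hV : T + 2 * Real.log T ≤ 2 * T - 2 * Real.log T := by linarith
  have hm := h2 T hTT2 t0 (T + 2 * Real.log T) (2 * T - 2 * Real.log T) hV (by linarith)
    (by linarith)
  have hpt : ∀ t ∈ Set.Icc (T + 2 * Real.log T) (2 * T - 2 * Real.log T),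
      wt t0 (dd P.κ T) t * ‖EE P B0 r F T t‖ ^ 4 ≤
      C1 ^ 4 * (wt t0 (dd P.κ T) t * Real.exp ((8 * B0 + 1) * (‖SP.Ya T 1 t‖ + Mk T 1 t))) := by
    intro t ht
    have hM0 : 0 ≤ Mk T 1 t := SP.DpB_Mk_nonneg _ _ _
    have h3 := h1 T hTT1 t ht.1 ht.2
    have h4 : ‖EE P B0 r F T t‖ ^ 4 ≤ C1 ^ 4 * Real.exp ((8 * B0 + 1) * (‖SP.Ya T 1 t‖ + Mk T 1 t)) := by
      calc ‖EE P B0 r F T t‖ ^ 4 ≤ (C1 * (1 + Mk T 1 t) ^ (2 * B0)) ^ 4 :=
            pow_le_pow_left₀ (norm_nonneg _) h3 4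
        _ = C1 ^ 4 * (1 + Mk T 1 t) ^ (8 * B0) := by
            rw [mul_pow, ← pow_mul]
            congr 2
            ring
        _ ≤ C1 ^ 4 * (Real.exp (Mk T 1 t)) ^ (8 * B0) := by
            gcongr
            linarith [Real.add_one_le_exp (Mk T 1 t)]
        _ = C1 ^ 4 * Real.exp ((8 * B0 : ℕ) * Mk T 1 t) := by rw [← Real.exp_nat_mul]
        _ ≤ C1 ^ 4 * Real.exp ((8 * B0 + 1) * (‖SP.Ya T 1 t‖ + Mk T 1 t)) := by
            apply mul_le_mul_of_nonneg_left _ (by positivity)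
            apply Real.exp_le_exp.2
            push_cast
            have e1 := norm_nonneg (SP.Ya T 1 t)
            have e2 : (0 : ℝ) ≤ (8 * B0 + 1) * ‖SP.Ya T 1 t‖ := by positivity
            nlinarith
    have hw := SP.Mom2.wt_nonneg t0 (dd P.κ T) t
    calc _ ≤ wt t0 (dd P.κ T) t * (C1 ^ 4 *
          Real.exp ((8 * B0 + 1) * (‖SP.Ya T 1 t‖ + Mk T 1 t))) :=
          mul_le_mul_of_nonneg_left h4 hw
      _ = _ := by ring
  have hcont : Continuous (fun t => C1 ^ 4 * (wt t0 (dd P.κ T) t *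
      Real.exp ((8 * B0 + 1) * (‖SP.Ya T 1 t‖ + Mk T 1 t)))) :=
    (SP.Mom2.main_cont T P.κ 1 (8 * B0 + 1) (by linarith) one_pos t0).const_mul _ |>.congr
      (fun t => rfl)
  have hmono := SP.Mom2.int_mono (fun t => wt t0 (dd P.κ T) t * ‖EE P B0 r F T t‖ ^ 4) _ _ _ hV
    (fun t _ => mul_nonneg (SP.Mom2.wt_nonneg _ _ _) (by positivity)) hpt hcont
  refine hmono.trans ?_
  rw [intervalIntegral.integral_const_mul]
  calc _ ≤ C1 ^ 4 * (C2 * dd P.κ T) := by
        apply mul_le_mul_of_nonneg_left hm (by positivity)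
    _ = _ := by ring

end LG
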